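import Pool.Agent.Y719.EL.NF9

/-!
# Abelian varieties of `GL₂`-type and Hilbert newforms: the moduli of `[F : ℚ]` twists decide

Let `F` be a number field of degree `n`, for example totally real, `A` an abelian variety of
dimension `d` over `F` and `f` a Hilbert newform of parallel weight 2 over `F` with the field `M_f` of
Hecke eigenvalues.  For an embedding `ι` of `M_f` in a number field `M` we show that `A` is associated
to `f` by `ι`, that is the Euler factors of `L(A, s)` and of `∏_{τ : M → ℂ} L(f^{τι}, s)` are equal at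
every place of `F`, if and only if the absolute values of the boundary values on `Re s = 3/2` of the
`n` twists by `ψ^j`, `0 ≤ j < n`, agree, where `ψ` is one function on the places which separates the
places above each prime number.  It is enough to know that the quotients of the absolute values are
nearly constant on sets of positive upper density of the line.  Nothing is assumed about a
continuation of `L(A, s)` or of its twists.
-/

set_option autoImplicit false

namespace Pool.Agent.Results.MP_326854_nt.ModuliOfTwists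

open NumberField IsDedekindDomain MeasureTheory Filter Topology Polynomial

section
variable (F : Type) [Field F] [NumberField F]

/-- The Euler factors of an abelian variety of dimension `d` over `F`: the polynomials
`det(1 - Frob_v X)` on the inertia invariants, with integral coefficients, constant term `1`, of
degree at most `2d`, and with the bounds of Weil and Grothendieck: all inverse roots are at most
`Nv^{1/2}` in absolute value. -/
structure AbelianFactors (d : ℕ) where
  /-- the polynomials -/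
  P : HeightOneSpectrum (𝓞 F) → ℤ[X]
  coeff_zero : ∀ v, (P v).coeff 0 = 1
  natDegree_le : ∀ v, (P v).natDegree ≤ 2 * d
  bound : ∀ v, ∀ z : ℂ, ((P v).map (Int.castRingHom ℂ)).eval z = 0 →
    (Ideal.absNorm v.asIdeal : ℝ) ^ (-(1 / 2) : ℝ) ≤ ‖z‖

/-- The Euler factors of a Hilbert newform of parallel weight 2 with eigenvalues in `M₀`: at a place
not dividing the level `1 - a_v X + ε_v Nv X²`, where `ε` is the central character, at the other
places `1 - a_v X`; for all conjugates the inverse roots are at most `Nv^{1/2}` in absolute value (the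
Ramanujan conjecture, proved by Blasius). -/
structure Newform (M₀ : Type) [Field M₀] where
  /-- the level -/
  level : Ideal (𝓞 F)
  level_ne : level ≠ ⊥
  /-- the Hecke eigenvalues -/
  a : HeightOneSpectrum (𝓞 F) → M₀
  /-- the values of the central character -/
  ε : HeightOneSpectrum (𝓞 F) → M₀
  bound : ∀ (τ : M₀ →+* ℂ) (v : HeightOneSpectrum (𝓞 F)) (z : ℂ),
    (¬ level ≤ v.asIdeal → 1 - τ (a v) * z + τ (ε v) * (Ideal.absNorm v.asIdeal : ℂ) * z ^ 2 = 0 →
      (Ideal.absNorm v.asIdeal : ℝ) ^ (-(1 / 2) : ℝ) ≤ ‖z‖) ∧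
    (level ≤ v.asIdeal → 1 - τ (a v) * z = 0 →
      (Ideal.absNorm v.asIdeal : ℝ) ^ (-(1 / 2) : ℝ) ≤ ‖z‖)

variable {F}

/-- The polynomials of `A`, with complex coefficients. -/
noncomputable def AbelianFactors.poly {d : ℕ} (A : AbelianFactors F d)
    (v : HeightOneSpectrum (𝓞 F)) : ℂ[X] := (A.P v).map (Int.castRingHom ℂ)

open Classical in
/-- The polynomials of the conjugate `f^τ`, for `τ : M₀ → ℂ`. -/
noncomputable def Newform.poly {M₀ : Type} [Field M₀] (f : Newform F M₀) (τ : M₀ →+* ℂ)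
    (v : HeightOneSpectrum (𝓞 F)) : ℂ[X] :=
  1 - C (τ (f.a v)) * X +
    C (if f.level ≤ v.asIdeal then 0 else τ (f.ε v) * (Ideal.absNorm v.asIdeal : ℂ)) * X ^ 2

/-- `ψ` separates the places above each prime number, up to the degree `N`. -/
def Separates (ψ : HeightOneSpectrum (𝓞 F) → ℂ) (N : ℕ) : Prop :=
  ∀ v w : HeightOneSpectrum (𝓞 F), v ≠ w → ∀ k l : ℕ, 1 ≤ k → k ≤ N → 1 ≤ l → l ≤ N →
    Ideal.absNorm v.asIdeal ^ k = Ideal.absNorm w.asIdeal ^ l → ψ v ^ k ≠ ψ w ^ l

/-- The Euler product `∏_v P_v(ψ(v)^j Nv^{-s})⁻¹`: the product with the polynomials `P_v`, twisted by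
`ψ^j`. -/
noncomputable def L (P : HeightOneSpectrum (𝓞 F) → ℂ[X]) (ψ : HeightOneSpectrum (𝓞 F) → ℂ) (j : ℕ)
    (s : ℂ) : ℂ :=
  ∏' v : HeightOneSpectrum (𝓞 F),
    ((P v).eval (ψ v ^ j * (Ideal.absNorm v.asIdeal : ℂ) ^ (-s)))⁻¹

/-- The limit of `|L(3/2 + σ + iτ)|` for `σ → 0`, `σ > 0`. -/
noncomputable def edgeAbs (P : HeightOneSpectrum (𝓞 F) → ℂ[X])
    (ψ : HeightOneSpectrum (𝓞 F) → ℂ) (j : ℕ) (τ : ℝ) : ℝ :=
  limUnder (𝓝[>] (0 : ℝ)) fun σ : ℝ => ‖L P ψ j (3 / 2 + σ + τ * Complex.I)‖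

end

/-- The values of `f` are concentrated: there is `δ > 0` such that for every `ε > 0` there are
arbitrarily large `T` and a real number `x` with `|f - x| < ε` on a subset of `(0, T]` of measure at
least `δ T`. -/
def Concentrated (f : ℝ → ℝ) : Prop :=
  ∃ δ : ℝ, 0 < δ ∧ ∀ ε : ℝ, 0 < ε → ∃ᶠ T : ℝ in atTop, ∃ x : ℝ,
    ENNReal.ofReal (δ * T) ≤ volume {τ | τ ∈ Set.Ioc 0 T ∧ |f τ - x| < ε}

/-- **`[F : ℚ]` moduli decide whether `A` is associated to `f`.**  Let `F` be a number field of degree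
`n`, `M₀` and `M` number fields, `f` a newform with eigenvalues in `M₀`, `A` an abelian variety of
dimension `d` over `F`, `N ≥ 2d` and `N ≥ 2[M : ℚ]`.  There are functions `ψ` of absolute value one on
the places of `F` which separate the places above each prime number up to the degree `N`.  Let `ψ`
be such a function (of absolute value at most one) and `ι : M₀ → M`.  The following are equivalent:

1. `A` is associated to `f` by `ι`: at every place of `F` the Euler factor of `A` is the product of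
  the Euler factors of the conjugates `f^{τι}`, `τ : M → ℂ`;
2. for `0 ≤ j < n` and almost all real `τ`,
  `|L(A ⊗ ψ^j, 3/2 + iτ)| = ∏_σ |L(f^{σι} ⊗ ψ^j, 3/2 + iτ)|`;
3. for `0 ≤ j < n` the logarithm of the quotient of the two sides is concentrated, for example
  constant on a set of positive upper density. -/
theorem result (F : Type) [Field F] [NumberField F] (M₀ M : Type) [Field M₀] [Field M]
    [NumberField M] (d N : ℕ) (hd : 2 * d ≤ N) (hM : 2 * Module.finrank ℚ M ≤ N) :
    (∃ ψ : HeightOneSpectrum (𝓞 F) → ℂ, (∀ v, ‖ψ v‖ = 1) ∧ Separates ψ N) ∧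
    ∀ ψ : HeightOneSpectrum (𝓞 F) → ℂ, (∀ v, ‖ψ v‖ ≤ 1) → Separates ψ N →
      ∀ (A : AbelianFactors F d) (f : Newform F M₀) (ι : M₀ →+* M), List.TFAE
        [∀ v, A.poly v = ∏ τ : M →+* ℂ, f.poly (τ.comp ι) v,
         ∀ j < Module.finrank ℚ F, ∀ᵐ τ : ℝ,
          edgeAbs A.poly ψ j τ = ∏ σ : M →+* ℂ, edgeAbs (f.poly (σ.comp ι)) ψ j τ,
         ∀ j < Module.finrank ℚ F, Concentrated fun τ => Real.log (edgeAbs A.poly ψ j τ) -
            ∑ σ : M →+* ℂ, Real.log (edgeAbs (f.poly (σ.comp ι)) ψ j τ)] := by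
  classical
  refine ⟨?_, fun ψ hψ hsep A f ι => ?_⟩
  · obtain ⟨ψ, h1, h2⟩ := Pool.Agent.Y719.EL.N.exists_sep (K := F) N
    exact ⟨ψ, h1, fun v w hvw k l hk hkN hl hlN _ => h2 v w hvw k l hk hkN hl hlN⟩
  have hA : Pool.Agent.Y719.EL.N.Typ (Pool.Agent.Y719.EL.N.nz 1 A.poly) (2 * d) := by
    refine Pool.Agent.Y719.EL.N.typ_weight (fun v => ?_) (fun v => ?_) (fun v z hz => ?_)
    · unfold AbelianFactors.poly
      rw [coeff_map, A.coeff_zero v]
      simp
    · exact natDegree_map_le.trans (A.natDegree_le v)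
    · refine le_trans (le_of_eq ?_) (A.bound v z hz)
      rfl
  have hf : ∀ τ : M₀ →+* ℂ,
      Pool.Agent.Y719.EL.N.Typ (Pool.Agent.Y719.EL.N.nz 1 (f.poly τ)) 2 := by
    intro τ
    have h1 : f.poly τ = Pool.Agent.Y719.EL.N.FP (fun v => τ (f.a v)) (fun v =>
        if f.level ≤ v.asIdeal then 0 else τ (f.ε v) * (Ideal.absNorm v.asIdeal : ℂ)) := rfl
    rw [h1]
    refine Pool.Agent.Y719.EL.N.typ_weight
      (fun v => Pool.Agent.Y719.EL.N.FP_coeff_zero _ _ v)
      (fun v => Pool.Agent.Y719.EL.N.FP_deg _ _ v) (fun v z hz => ?_)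
    rw [Pool.Agent.Y719.EL.N.FP_eval] at hz
    obtain ⟨h2, h3⟩ := f.bound τ v z
    by_cases h : f.level ≤ v.asIdeal
    · rw [if_pos h, zero_mul, add_zero] at hz
      exact h3 h hz
    · rw [if_neg h] at hz
      exact h2 h hz
  have hs := Pool.Agent.Y719.EL.N.sep_pow (N := N) (K := F) (ψ := ψ) hsep
  have hnorm : ∀ (j : Fin (Module.finrank ℚ F)) (v : HeightOneSpectrum (𝓞 F)),
      ‖ψ v ^ (j : ℕ)‖ ≤ 1 := fun j v => by
    rw [norm_pow]
    exact pow_le_one₀ (norm_nonneg _) (hψ v)
  have he : ∀ (P : HeightOneSpectrum (𝓞 F) → ℂ[X]) (j : ℕ) (τ : ℝ),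
      Pool.Agent.Y719.EL.N.eA 1 P (fun v => ψ v ^ j) τ = edgeAbs P ψ j τ := by
    intro P j τ
    have hL : ∀ s, Pool.Agent.Y719.EL.N.LS P (fun v => ψ v ^ j) s = L P ψ j s := fun s => rfl
    unfold Pool.Agent.Y719.EL.N.eA edgeAbs
    congr 1
    funext σ
    rw [hL]
    congr 2
    push_cast
    ring
  have h1 := Pool.Agent.Y719.EL.N.main_w (κ := M →+* ℂ) (w := 1) (P₀ := A.poly)
    (P := fun τ => f.poly (τ.comp ι)) (N₀ := 2 * d) (n := fun _ => 2) (M := N) hA
    (fun τ => hf (τ.comp ι)) (fun _ => 0) hnorm hd (by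
      rw [Finset.sum_const, Finset.card_univ, Embeddings.card, smul_eq_mul, mul_comm]
      exact hM) hs
  have hshp : ∀ v, Pool.Agent.Y719.EL.N.shp (fun τ : M →+* ℂ => f.poly (τ.comp ι)) (fun _ => 0) v =
      ∏ τ : M →+* ℂ, f.poly (τ.comp ι) v := by
    intro v
    unfold Pool.Agent.Y719.EL.N.shp
    refine Finset.prod_congr rfl fun τ _ => ?_
    simp
  have hfin : ∀ Q : ℕ → Prop, (∀ j : Fin (Module.finrank ℚ F), Q j) ↔
      ∀ j < Module.finrank ℚ F, Q j := fun Q => Fin.forall_iff
  simp_rw [hshp] at h1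
  simp only [add_zero, he] at h1
  rw [hfin fun j => ∀ᵐ τ : ℝ, edgeAbs A.poly ψ j τ =
      ∏ σ : M →+* ℂ, edgeAbs (f.poly (σ.comp ι)) ψ j τ,
    hfin fun j => Pool.Agent.Y774.MD.Concentrated fun τ => Real.log (edgeAbs A.poly ψ j τ) -
            ∑ σ : M →+* ℂ, Real.log (edgeAbs (f.poly (σ.comp ι)) ψ j τ)] at h1
  exact h1

end Pool.Agent.Results.MP_326854_nt.ModuliOfTwists
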